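import Pool.Agent.K3h34.BF.OrigM
import Pool.Agent.K3h58.BF.Dehom

/-! # The vertex for forms with at least three marked points -/

set_option autoImplicit false

namespace Pool.Agent.K3h34.BF

open MvPolynomial
open Pool.Agent.H628R4.TP (weylS IsBFunction)
open Pool.Agent.K3h15.DM (Rx sh hx Dl Yp Sym IsDisc hz)
open Pool.Agent.K3h15.BF (dh IsDiscB)

theorem split3 {ι M : Type} [Fintype ι] [DecidableEq ι] [CommMonoid M] (g : ι → M) {i₁ i₂ i₃ : ι}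
    (h12 : i₁ ≠ i₂) (h13 : i₁ ≠ i₃) (h23 : i₂ ≠ i₃) :
    ∏ j, g j = g i₃ * g i₁ * g i₂ * ∏ j : {j : ι // j ≠ i₃ ∧ j ≠ i₁ ∧ j ≠ i₂}, g j := by
  rw [← Finset.mul_prod_erase Finset.univ g (Finset.mem_univ i₃),
    ← Finset.mul_prod_erase (Finset.univ.erase i₃) g (a := i₁) (by simp [h13]),
    ← Finset.mul_prod_erase ((Finset.univ.erase i₃).erase i₁) g (a := i₂)
      (by simp [h23, Ne.symm h12]), mul_assoc, mul_assoc]
  congr 3
  refine (Finset.prod_subtype _ (fun j => ?_) g)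
  simp only [Finset.mem_erase, Finset.mem_univ, and_true]
  tauto

theorem split3' {ι M : Type} [Fintype ι] [DecidableEq ι] [AddCommMonoid M] (g : ι → M)
    {i₁ i₂ i₃ : ι} (h12 : i₁ ≠ i₂) (h13 : i₁ ≠ i₃) (h23 : i₂ ≠ i₃) :
    ∑ j, g j = g i₃ + g i₁ + g i₂ + ∑ j : {j : ι // j ≠ i₃ ∧ j ≠ i₁ ∧ j ≠ i₂}, g j :=
  split3 (M := Multiplicative M) g h12 h13 h23

/-- constant factors -/
theorem isB_const {σ : Type} {g : MvPolynomial σ ℂ} {c : Polynomial ℂ} {κ : ℂ} (hκ : κ ≠ 0)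
    (h : IsBFunction (C κ * g) c) : IsBFunction g c := by
  obtain ⟨P, hP⟩ := h
  refine ⟨P.mapRange (fun Q => κ • Q) (smul_zero κ), fun s => ?_⟩
  have h1 := hP s
  rw [mul_pow, mul_pow, ← C_pow, ← C_pow] at h1
  have h2 : C (c.eval (s : ℂ)) * (C (κ ^ s) * g ^ s) = C (κ ^ s) * (C (c.eval (s : ℂ)) * g ^ s) := by
    ring
  rw [h2] at h1
  have h3 : (C (κ ^ s) : MvPolynomial σ ℂ) ≠ 0 := by
    rw [Ne, C_eq_zero]
    exact pow_ne_zero _ hκ
  apply mul_left_cancel₀ h3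
  rw [h1, Finsupp.sum_mapRange_index (by intro m; simp), Finsupp.sum, Finsupp.sum,
    Finset.mul_sum]
  refine Finset.sum_congr rfl fun m _ => ?_
  rw [← smul_eq_C_mul, ← smul_eq_C_mul, map_smul]
  have h4 : ((κ • (P m) : weylS σ) : Module.End ℂ (MvPolynomial σ ℂ)) =
      κ • ((P m : weylS σ) : Module.End ℂ (MvPolynomial σ ℂ)) := rfl
  rw [h4, LinearMap.smul_apply, smul_smul, smul_smul, smul_smul, pow_succ]
  congr 1
  ring

/-- the vertex -/
theorem vertex (hMob : StmMob) (hTrans : StmTrans) (hOrig : StmOrig) {n : ℕ} (hn : 1 ≤ n)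
    {F : Rc n} (hF : IsDiscB n F) {a r : ℕ} (ha : 1 ≤ a) (hr : 3 ≤ r) {z : Fin r → ℂ}
    (hz : Function.Injective z) {b : Fin r → ℕ} (hb : ∀ j, 1 ≤ b j) {c : Polynomial ℂ}
    (hc : IsBFunction (F ^ a * ∏ j, hv n (z j) ^ b j) c) :
    ∃ i : ℤ, c.eval (-((n : ℂ) + 1) / ((2 * n - 2 : ℕ) * a + ∑ j, b j : ℕ) + i) = 0 := by
  classical
  set i₃ : Fin r := ⟨0, by omega⟩ with hi3
  obtain ⟨M, M', hMM, hMF, hM0, hMv⟩ := hMob n hn F hF (z i₃)
  set φ : Rc n →ₐ[ℂ] Rc n := aeval (fun j => ∑ k, C (M j k) * X k : Fin (n + 1) → Rc n) with hφ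
  set ζ : Fin r → ℂ := fun j => 1 / (z j - z i₃) with hζ
  have hζi : ∀ i j, i ≠ i₃ → j ≠ i₃ → ζ i = ζ j → i = j := by
    intro i j hi hj h
    have h1 : z i - z i₃ ≠ 0 := sub_ne_zero.mpr fun h => hi (hz h)
    have h2 : z j - z i₃ ≠ 0 := sub_ne_zero.mpr fun h => hj (hz h)
    rw [hζ] at h
    simp only [one_div] at h
    have h3 := inv_injective h
    exact hz (by linear_combination h3)
  -- the nearest pair
  set S : Finset (Fin r × Fin r) := (Finset.univ.erase i₃).offDiag with hS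
  have hSn : S.Nonempty := by
    refine ⟨(⟨1, by omega⟩, ⟨2, by omega⟩), ?_⟩
    rw [hS, Finset.mem_offDiag]
    simp [hi3, Fin.ext_iff]
  obtain ⟨⟨i₁, i₂⟩, hp, hmin⟩ := S.exists_min_image (fun p => dist (ζ p.1) (ζ p.2)) hSn
  rw [hS, Finset.mem_offDiag] at hp
  simp only [Finset.mem_erase, Finset.mem_univ, and_true] at hp
  obtain ⟨h13, h23, h12⟩ := hp
  have hc1 := hTrans (n + 1) M M' hMM _ c hc
  have e1 : φ (F ^ a * ∏ j, hv n (z j) ^ b j) =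
      C (∏ j : Fin r, (if j = i₃ then 1 else ((z j - z i₃) ^ n) ^ b j)) *
      (X (Fin.last n) ^ b i₃ * F ^ a * hv n (ζ i₁) ^ b i₁ *
        hv n (ζ i₁ + (ζ i₂ - ζ i₁)) ^ b i₂ *
        ∏ j : {j : Fin r // j ≠ i₃ ∧ j ≠ i₁ ∧ j ≠ i₂}, hv n (ζ j) ^ b j) := by
    have e2 : ∀ j, φ (hv n (z j) ^ b j) =
        C (if j = i₃ then 1 else ((z j - z i₃) ^ n) ^ b j) *
          (if j = i₃ then X (Fin.last n) else hv n (ζ j)) ^ b j := by
      intro j
      by_cases hj : j = i₃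
      · rw [if_pos hj, if_pos hj, C_1, one_mul, map_pow, hj, hM0]
      · rw [if_neg hj, if_neg hj, map_pow, hMv (z j) (fun h => hj (hz h)), mul_pow, ← C_pow]
    rw [map_mul, map_pow, hMF, map_prod, Finset.prod_congr rfl fun j _ => e2 j,
      Finset.prod_mul_distrib, ← map_prod C,
      split3 (fun j => (if j = i₃ then X (Fin.last n) else hv n (ζ j)) ^ b j) h12 h13 h23,
      if_pos rfl, if_neg h13, if_neg h23]
    have e3 : ∏ j : {j : Fin r // j ≠ i₃ ∧ j ≠ i₁ ∧ j ≠ i₂},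
        (if (j : Fin r) = i₃ then X (Fin.last n) else hv n (ζ j)) ^ b j =
        ∏ j : {j : Fin r // j ≠ i₃ ∧ j ≠ i₁ ∧ j ≠ i₂}, hv n (ζ j) ^ b j :=
      Finset.prod_congr rfl fun j _ => by rw [if_neg j.2.1]
    rw [e3, add_sub_cancel]
    ring
  have hκ : (∏ j : Fin r, (if j = i₃ then 1 else ((z j - z i₃) ^ n) ^ b j)) ≠ 0 := by
    refine Finset.prod_ne_zero_iff.mpr fun j _ => ?_
    split_ifs with hj
    · exact one_ne_zero
    · exact pow_ne_zero _ (pow_ne_zero _ (sub_ne_zero.mpr fun h => hj (hz h)))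
  have hc2 : IsBFunction (φ (F ^ a * ∏ j, hv n (z j) ^ b j)) c := hc1
  rw [e1] at hc2
  have hc3 := isB_const hκ hc2
  obtain ⟨i, hi⟩ := hOrig n F a (b i₃) (b i₁) (b i₂) (ζ i₁) (ζ i₂ - ζ i₁)
    {j : Fin r // j ≠ i₃ ∧ j ≠ i₁ ∧ j ≠ i₂} (fun j => ζ j) (fun j => b j) c hn hF ha (hb _) (hb _)
    (hb _) (sub_ne_zero.mpr fun h => h12 (hζi _ _ h13 h23 h.symm)) (by
      intro j t ht0 ht1 h
      have h1 : ζ j ≠ ζ i₁ := fun h => j.2.2.1 (hζi _ _ j.2.1 h13 h)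
      have h2 : ζ j ≠ ζ i₂ := fun h => j.2.2.2 (hζi _ _ j.2.1 h23 h)
      have hl : 0 < dist (ζ i₁) (ζ i₂) := dist_pos.mpr fun h => h12 (hζi _ _ h13 h23 h)
      have h3 : dist (ζ i₁) (ζ j) = t * dist (ζ i₁) (ζ i₂) := by
        rw [dist_comm (ζ i₁), dist_comm (ζ i₁), Complex.dist_eq, Complex.dist_eq, h,
          add_sub_cancel_left, norm_mul, Complex.norm_real, Real.norm_eq_abs,
          abs_of_nonneg ht0, mul_comm]
      have h4 := hmin (i₁, (j : Fin r)) (by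
        rw [hS, Finset.mem_offDiag]
        simp only [Finset.mem_erase, Finset.mem_univ, and_true]
        exact ⟨h13, j.2.1, fun h => j.2.2.1 h.symm⟩)
      simp only at h4
      rw [h3] at h4
      have h5 : t ≠ 1 := by
        rintro rfl
        apply h2
        rw [h]
        push_cast
        ring
      have h6 : t < 1 := lt_of_le_of_ne ht1 h5
      nlinarith) hc3
  refine ⟨i, ?_⟩
  rw [← hi]
  congr 3
  have h7 := split3' (fun j => b j) h12 h13 h23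
  have h8 : (2 * n - 2) * a + ∑ j, b j = (2 * n - 2) * a + b i₃ + b i₁ + b i₂ +
      ∑ j : {j : Fin r // j ≠ i₃ ∧ j ≠ i₁ ∧ j ≠ i₂}, b j := by
    rw [h7]
    ring
  exact_mod_cast h8

end Pool.Agent.K3h34.BF
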