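import Pool.Agent.K3h34.BF.Stm

/-! # Assembly: the vertex of the cone -/

set_option autoImplicit false

namespace Pool.Agent.K3h34.BF

open MvPolynomial
open Pool.Agent.H628R4.TP (weylS IsBFunction)
open Pool.Agent.K3h15.DM (Rx sh hx Dl Yp Sym IsDisc hz)
open Pool.Agent.K3h15.BF (dh IsDiscB)

theorem key_bound {E R c₀ t : ℝ} {M m : ℕ} (hE0 : 0 < E) (hE1 : E ≤ 1) (hc : 0 < c₀)
    (h : c₀ * E ^ M ≤ Real.exp R) (ht0 : t ≤ 0) (htm : -(m : ℝ) ≤ t) :
    Real.exp (t * R) * E ^ (M * m) ≤ 1 + (1 / c₀) ^ m := by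
  have hEM : 0 < E ^ M := pow_pos hE0 M
  have hR := Real.exp_pos R
  have h1 : Real.exp (t * R) ≤ 1 + (1 / Real.exp R) ^ m := by
    rcases le_or_gt 0 R with h0 | h0
    · have : Real.exp (t * R) ≤ 1 := by
        rw [Real.exp_le_one_iff]
        exact mul_nonpos_of_nonpos_of_nonneg ht0 h0
      have h2 : 0 ≤ (1 / Real.exp R) ^ m := by positivity
      linarith
    · have h2 : Real.exp (t * R) ≤ (1 / Real.exp R) ^ m := by
        rw [one_div, ← Real.exp_neg, ← Real.exp_nat_mul]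
        apply Real.exp_le_exp.mpr
        nlinarith
      linarith
  have h3 : (1 / Real.exp R) ^ m * E ^ (M * m) ≤ (1 / c₀) ^ m := by
    rw [pow_mul, ← mul_pow]
    apply pow_le_pow_left₀ (by positivity)
    rw [div_mul_eq_mul_div, one_mul, div_le_div_iff₀ hR hc, one_mul]
    linarith
  have h4 : E ^ (M * m) ≤ 1 := pow_le_one₀ hE0.le hE1
  have h5 : 0 ≤ E ^ (M * m) := by positivity
  calc Real.exp (t * R) * E ^ (M * m) ≤ (1 + (1 / Real.exp R) ^ m) * E ^ (M * m) :=
        mul_le_mul_of_nonneg_right h1 h5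
    _ = E ^ (M * m) + (1 / Real.exp R) ^ m * E ^ (M * m) := by ring
    _ ≤ _ := by linarith

theorem continuous_ev {n : ℕ} (p : Rx n) : Continuous fun x : Fin n → ℝ => ev x p := by
  have h1 : Continuous fun y : Fin n → ℂ => eval y p := MvPolynomial.continuous_eval p
  exact h1.comp (continuous_pi fun i => Complex.continuous_ofReal.comp (continuous_apply i))

theorem ev_bdd {n : ℕ} (p : Rx n) : ∃ C : ℝ, 0 ≤ C ∧ ∀ x ∈ Usim n, ‖ev x p‖ ≤ C := by
  obtain ⟨C, hC⟩ := (isCompact_Icc (a := (0 : Fin n → ℝ)) (b := 1)).exists_bound_of_continuousOn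
    (continuous_ev p).continuousOn
  refine ⟨max C 0, le_max_right _ _, fun x hx => (hC x ⟨fun i => ?_, fun i => ?_⟩).trans
    (le_max_left _ _)⟩
  · exact (hx.2 i).1.le
  · exact (hx.2 i).2.le

theorem Ef_pos {n : ℕ} {x : Fin n → ℝ} (hx : x ∈ Usim n) : 0 < Ef x := by
  unfold Ef
  refine mul_pos (Finset.prod_pos fun i _ => ?_) (Finset.prod_pos fun i _ =>
    Finset.prod_pos fun j hj => ?_)
  · have := hx.2 i
    exact mul_pos this.1 (by linarith [this.2])
  · have := hx.1 i j (Finset.mem_Ioi.mp hj)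
    exact pow_pos (by linarith) 2

theorem Ef_le {n : ℕ} {x : Fin n → ℝ} (hx : x ∈ Usim n) : Ef x ≤ 1 := by
  unfold Ef
  have h0 : ∀ i, 0 < x i * (1 - x i) := fun i => by
    have := hx.2 i
    exact mul_pos this.1 (by linarith [this.2])
  have h1 : ∏ i, x i * (1 - x i) ≤ 1 := Finset.prod_le_one (fun i _ => (h0 i).le) fun i _ => by
    have := hx.2 i
    nlinarith
  have h2 : ∏ i : Fin n, ∏ j ∈ Finset.Ioi i, (x j - x i) ^ 2 ≤ 1 :=
    Finset.prod_le_one (fun i _ => Finset.prod_nonneg fun j _ => sq_nonneg _) fun i _ =>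
      Finset.prod_le_one (fun j _ => sq_nonneg _) fun j _ => by
        have hi := hx.2 i
        have hj := hx.2 j
        rw [sq_le_one_iff_abs_le_one, abs_le]
        constructor <;> linarith
  have h3 : 0 ≤ ∏ i : Fin n, ∏ j ∈ Finset.Ioi i, (x j - x i) ^ 2 :=
    Finset.prod_nonneg fun i _ => Finset.prod_nonneg fun j _ => sq_nonneg _
  calc _ ≤ 1 * 1 := mul_le_mul h1 h2 h3 zero_le_one
    _ = 1 := one_mul 1

theorem Dl_le {n : ℕ} {x : Fin n → ℝ} (hx : x ∈ Usim n) : ‖ev x (Dl n)‖ ≤ 1 := by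
  have h1 : ev x (Dl n) = ∏ i : Fin n, ∏ j ∈ Finset.Ioi i, ((x j - x i : ℝ) : ℂ) := by
    simp [ev, Dl]
  rw [h1, norm_prod]
  refine Finset.prod_le_one (fun i _ => norm_nonneg _) fun i _ => ?_
  rw [norm_prod]
  refine Finset.prod_le_one (fun i _ => norm_nonneg _) fun j _ => ?_
  rw [Complex.norm_real, Real.norm_eq_abs]
  have hi := hx.2 i
  have hj := hx.2 j
  rw [abs_le]
  constructor <;> linarith

theorem Dl_ne' {n : ℕ} {x : Fin n → ℝ} (hx : x ∈ Usim n) : ev x (Dl n) ≠ 0 := by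
  have h1 : ev x (Dl n) = ∏ i : Fin n, ∏ j ∈ Finset.Ioi i, ((x j - x i : ℝ) : ℂ) := by
    simp [ev, Dl]
  rw [h1]
  refine Finset.prod_ne_zero_iff.mpr fun i _ => Finset.prod_ne_zero_iff.mpr fun j hj => ?_
  have := hx.1 i j (Finset.mem_Ioi.mp hj)
  rw [Complex.ofReal_ne_zero]
  linarith

/-- homogenization -/
theorem exists_homog {n : ℕ} (g : Rx n) : ∃ (d : ℕ) (G : Rc n), G.IsHomogeneous d ∧ dh n G = g := by
  refine ⟨g.totalDegree, ∑ i ∈ Finset.range (g.totalDegree + 1),
    rename Fin.castSucc (homogeneousComponent i g) * X (Fin.last n) ^ (g.totalDegree - i), ?_, ?_⟩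
  · refine IsHomogeneous.sum _ _ _ fun i hi => ?_
    have h1 : (rename Fin.castSucc (homogeneousComponent i g) : Rc n).IsHomogeneous i :=
      (homogeneousComponent_isHomogeneous i g).rename_isHomogeneous
    have h2 : (X (Fin.last n) ^ (g.totalDegree - i) : Rc n).IsHomogeneous
        (1 * (g.totalDegree - i)) := (isHomogeneous_X ℂ _).pow _
    have h3 := h1.mul h2
    have h4 : i + 1 * (g.totalDegree - i) = g.totalDegree := by
      have := Finset.mem_range.mp hi
      omega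
    rwa [h4] at h3
  · rw [map_sum]
    have h1 : dh n (X (Fin.last n)) = 1 := by
      rw [dh, aeval_X, dif_neg (by simp)]
    have h2 : ∀ p : Rx n, dh n (rename Fin.castSucc p) = p := by
      intro p
      rw [dh, aeval_rename]
      have : ((fun j : Fin (n + 1) => if h : (j : ℕ) < n then (X ⟨j, h⟩ : Rx n) else 1) ∘
          Fin.castSucc) = X := by
        funext i
        simp
      rw [this, aeval_X_left, AlgHom.id_apply]
    simp only [map_mul, map_pow, h1, h2, one_pow, mul_one]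
    exact sum_homogeneousComponent g

end Pool.Agent.K3h34.BF
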