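import Pool.Agent.K3h34.BF.Orig

/-! # Assembly: the vertex of the cone, main step -/

set_option autoImplicit false

namespace Pool.Agent.K3h34.BF

open MvPolynomial
open Pool.Agent.H628R4.TP (weylS IsBFunction)
open Pool.Agent.K3h15.DM (Rx sh hx Dl Yp Sym IsDisc hz)
open Pool.Agent.K3h15.BF (dh IsDiscB)

theorem ev_mul {n : ℕ} (x : Fin n → ℝ) (p q : Rx n) : ev x (p * q) = ev x p * ev x q := by
  simp [ev]

theorem ev_pow {n : ℕ} (x : Fin n → ℝ) (p : Rx n) (k : ℕ) : ev x (p ^ k) = ev x p ^ k := by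
  simp [ev]

theorem ev_C {n : ℕ} (x : Fin n → ℝ) (c : ℂ) : ev x (C c : Rx n) = c := by
  simp [ev]

/-- the values of the polynomial `D(h) h(w) h(w + l)` -/
theorem ev_D0 {n : ℕ} (hn : 1 ≤ n) (hVal : StmVal) {F : Rc n} (hF : IsDiscB n F) (w l : ℂ)
    (hl : l ≠ 0) : ∃ κ : ℂ, κ ≠ 0 ∧ ∀ x : Fin n → ℝ,
      ev x (qq n w l (F * hv n w * hv n (w + l))) = κ * (Ef x : ℂ) := by
  obtain ⟨-, h2, h3, -⟩ := hVal n w l hn
  refine ⟨l ^ (n * (n - 1)) * (-l) ^ n * l ^ n, by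
    refine mul_ne_zero (mul_ne_zero (pow_ne_zero _ hl) (pow_ne_zero _ (neg_ne_zero.mpr hl)))
      (pow_ne_zero _ hl), fun x => ?_⟩
  rw [map_mul, map_mul, h2 F hF, h3, h3, ev_mul, ev_mul, ev_mul, ev_C, ev_pow]
  have e1 : ev x (Dl n) = ∏ i : Fin n, ∏ j ∈ Finset.Ioi i, ((x j : ℂ) - x i) := by
    simp [ev, Dl]
  have hpm : ∀ (c : ℂ) (y : Fin n → ℂ), ∏ i, c * y i = c ^ n * ∏ i, y i := by
    intro c y
    rw [Finset.prod_mul_distrib, Finset.prod_const, Finset.card_univ, Fintype.card_fin]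
  have e2 : ev x (∏ i : Fin n, (C (w - w) - C l * X i : Rx n)) = (-l) ^ n * ∏ i, (x i : ℂ) := by
    rw [← hpm]
    simp only [ev, map_prod, map_sub, map_mul, eval_C, eval_X, sub_self, zero_sub]
    exact Finset.prod_congr rfl fun i _ => by ring
  have e3 : ev x (∏ i : Fin n, (C (w + l - w) - C l * X i : Rx n)) =
      l ^ n * ∏ i, (1 - (x i : ℂ)) := by
    rw [← hpm]
    simp only [ev, map_prod, map_sub, map_mul, eval_C, eval_X, map_add]
    exact Finset.prod_congr rfl fun i _ => by ring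
  rw [e1, e2, e3]
  unfold Ef
  push_cast
  rw [← Finset.prod_pow, Finset.prod_mul_distrib]
  have e4 : ∀ i : Fin n, (∏ j ∈ Finset.Ioi i, ((x j : ℂ) - x i)) ^ 2 =
      ∏ j ∈ Finset.Ioi i, ((x j : ℂ) - x i) ^ 2 := fun i => (Finset.prod_pow _ _ _).symm
  simp only [e4]
  ring

theorem t_Orig (hVert : StmVert) (hSlf : StmSlf) (hDiff : StmDiff) (hVal : StmVal)
    (hLog : StmLog) (hDens : StmDens) (hHom : StmHom) : StmOrig := by
  intro n F a b₀ b₁ b₂ w l J _ z b c hn hF ha hb0 hb1 hb2 hl hz hc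
  obtain ⟨L, C₀, c₀, hc0, hLc, hLe, hLi, hLr, hLb, hLf⟩ :=
    hLog n F a b₀ b₁ b₂ w l J z b hn hF ha hb1 hb2 hl hz
  obtain ⟨hv1, hv2, hv3, hv4, hUo, hUb, hUne⟩ := hVal n w l hn
  obtain ⟨hh1, hh2⟩ := hHom n hn
  obtain ⟨κ, hκ, hκe⟩ := ev_D0 hn hVal hF w l hl
  set f' : Rc n := F ^ a * hv n w ^ b₁ * hv n (w + l) ^ b₂ * ∏ j, hv n (z j) ^ b j with hf'
  set f : Rc n := X (Fin.last n) ^ b₀ * F ^ a * hv n w ^ b₁ * hv n (w + l) ^ b₂ *
    ∏ j, hv n (z j) ^ b j with hf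
  have hff : f = X (Fin.last n) ^ b₀ * f' := by rw [hf, hf']; ring
  set N' : ℕ := (2 * n - 2) * a + b₁ + b₂ + ∑ j, b j with hN'
  have hf'h : f'.IsHomogeneous N' := by
    rw [hf', hN']
    refine (((hF.1.pow a).mul ?_).mul ?_).mul ?_
    · have := ((hh2 w).1).pow b₁
      rwa [one_mul] at this
    · have := ((hh2 (w + l)).1).pow b₂
      rwa [one_mul] at this
    · refine IsHomogeneous.prod _ _ _ fun j _ => ?_
      have := ((hh2 (z j)).1).pow (b j)
      rwa [one_mul] at this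
  set N : ℕ := (2 * n - 2) * a + b₀ + b₁ + b₂ + ∑ j, b j with hN
  have hNN : N = b₀ + N' := by rw [hN, hN']; ring
  have hN1 : 1 ≤ N := by omega
  have hXh : (X (Fin.last n) ^ b₀ : Rc n).IsHomogeneous b₀ := by
    have := (isHomogeneous_X ℂ (Fin.last n)).pow b₀
    rwa [one_mul] at this
  have hfh : f.IsHomogeneous N := by
    rw [hff, hNN]
    exact hXh.mul hf'h
  have hf'0 : f' ≠ 0 := by
    rw [hf']
    refine mul_ne_zero (mul_ne_zero (mul_ne_zero (pow_ne_zero _ (hh1 F hF).1)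
      (pow_ne_zero _ (hh2 w).2.1)) (pow_ne_zero _ (hh2 _).2.1)) ?_
    exact Finset.prod_ne_zero_iff.mpr fun j _ => pow_ne_zero _ (hh2 _).2.1
  have hf0 : f ≠ 0 := by
    rw [hff]
    exact mul_ne_zero (pow_ne_zero _ (X_ne_zero _)) hf'0
  have hqf : qq n w l f' = qq n w l f := by
    have h1 : qq n w l f = qq n w l (X (Fin.last n) ^ b₀) * qq n w l f' := by
      rw [hff]
      exact map_mul _ _ _
    rw [h1, map_pow, hv1, one_pow, one_mul]
  obtain ⟨T, hTs, hTd, hTe⟩ := hSlf n w l f L C₀ hl hLc hLe hLi hLf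
  -- the numbers
  set M0 : ℕ := a + b₁ + b₂ with hM0
  set m : ℕ := n + 2 with hm
  set q : ℕ := M0 * m with hq
  have hNr : (0 : ℝ) < (N : ℝ) := by exact_mod_cast hN1
  have hNr1 : (1 : ℝ) ≤ (N : ℝ) := by exact_mod_cast hN1
  set s₀ : ℝ := -((n : ℝ) + 1) / N with hs0
  have hs0n : s₀ ≤ 0 := by
    rw [hs0]
    exact div_nonpos_of_nonpos_of_nonneg (by have := Nat.cast_nonneg (α := ℝ) n; linarith) hNr.le
  have hs0m : -((n : ℝ) + 1) ≤ s₀ := by
    rw [hs0, le_div_iff₀ hNr]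
    have h1 : (0 : ℝ) ≤ (n : ℝ) + 1 := by positivity
    nlinarith
  set D0 : Rc n := F * hv n w * hv n (w + l) with hD0
  have hD0h : D0.IsHomogeneous (2 * n - 2 + 1 + 1) := by
    rw [hD0]
    exact (hF.1.mul (hh2 w).1).mul (hh2 _).1
  set W : (Fin n → ℝ) → ℂ := fun x => Complex.exp ((s₀ : ℂ) * L x) * ev x (Dl n) *
    (κ * (Ef x : ℂ)) ^ q with hW
  have hexpn : ∀ (t : ℝ) (x : Fin n → ℝ), ‖Complex.exp ((t : ℂ) * L x)‖ =
      Real.exp (t * (L x).re) := by
    intro t x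
    rw [Complex.norm_exp]
    simp
  have hEfc : Continuous fun x : Fin n → ℝ => Ef x := by
    unfold Ef
    fun_prop
  have hWc : ContinuousOn W (Usim n) := by
    refine ContinuousOn.mul (ContinuousOn.mul ?_ (continuous_ev _).continuousOn) ?_
    · exact (Complex.continuous_exp.comp_continuousOn (continuousOn_const.mul hLc))
    · exact ((continuous_const.mul (Complex.continuous_ofReal.comp hEfc)).pow q).continuousOn
  have hWb : ∀ x ∈ Usim n, ‖W x‖ ≤ (1 + (1 / c₀) ^ m) * ‖κ‖ ^ q := by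
    intro x hx
    have h1 := key_bound (t := s₀) (Ef_pos hx) (Ef_le hx) hc0 (hLb x hx) hs0n
      (m := m) (by rw [hm]; push_cast; linarith)
    have h2 := Dl_le hx
    have h3 : ‖W x‖ = (Real.exp (s₀ * (L x).re) * Ef x ^ (M0 * m)) * ‖κ‖ ^ q *
        ‖ev x (Dl n)‖ := by
      rw [hW]
      simp only [norm_mul, norm_pow, hexpn, Complex.norm_real, Real.norm_eq_abs,
        abs_of_pos (Ef_pos hx), mul_pow]
      rw [hq]
      ring
    rw [h3]
    have h4 : 0 ≤ Real.exp (s₀ * (L x).re) * Ef x ^ (M0 * m) :=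
      mul_nonneg (Real.exp_pos _).le (pow_nonneg (Ef_pos hx).le _)
    have h5 : 0 ≤ ‖κ‖ ^ q := by positivity
    calc _ ≤ (1 + (1 / c₀) ^ m) * ‖κ‖ ^ q * 1 :=
          mul_le_mul (mul_le_mul_of_nonneg_right h1 h5) h2 (norm_nonneg _)
            (mul_nonneg (h4.trans h1) h5)
      _ = _ := mul_one _
  have hWn : ∀ x ∈ Usim n, W x ≠ 0 := by
    intro x hx
    refine mul_ne_zero (mul_ne_zero (Complex.exp_ne_zero _) (Dl_ne' hx)) (pow_ne_zero _ ?_)
    exact mul_ne_zero hκ (Complex.ofReal_ne_zero.mpr (Ef_pos hx).ne')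
  obtain ⟨p, hps, hpi⟩ := hDens n W _ hWc hWb hWn
  obtain ⟨g, hg⟩ := hv4 p hl hps
  obtain ⟨d, G, hGh, hGg⟩ := exists_homog g
  have hqG : qq n w l G = p := by
    rw [← hg, ← hGg]
    rfl
  -- the test polynomial
  set k : ℕ := (2 * n - 2 + 1 + 1) * q + d with hk
  set e : ℕ := k * b₀ - k with he
  have hke : k * b₀ = k + e := by
    have : k * 1 ≤ k * b₀ := Nat.mul_le_mul_left k hb0
    omega
  set v : Rc n := f' ^ k * D0 ^ q * G * X (Fin.last n) ^ e with hv
  have hvh : v.IsHomogeneous (k * N) := by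
    have h1 : v.IsHomogeneous (N' * k + (2 * n - 2 + 1 + 1) * q + d + 1 * e) := by
      rw [hv]
      exact (((hf'h.pow k).mul (hD0h.pow q)).mul hGh).mul ((isHomogeneous_X ℂ _).pow e)
    have h2 : N' * k + (2 * n - 2 + 1 + 1) * q + d + 1 * e = k * N := by
      have e1 : k * N = k * b₀ + k * N' := by rw [hNN, Nat.mul_add]
      have e2 : N' * k = k * N' := Nat.mul_comm _ _
      have e3 : (2 * n - 2 + 1 + 1) * q + d = k := hk.symm
      rw [e1, e2, hke, ← e3]
      ring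
    rwa [h2] at h1
  have hqv : qq n w l v = qq n w l f ^ k * qq n w l D0 ^ q * p := by
    rw [hv, map_mul, map_mul, map_mul, map_pow, map_pow, map_pow, hv1, one_pow, mul_one, hqf,
      hqG]
  set Gv : (Fin n → ℝ) → ℂ := fun x => ev x (Dl n * qq n w l v) with hGv
  have hGve : ∀ x ∈ Usim n, Gv x = Complex.exp ((k : ℂ) * L x) * ev x (Dl n) *
      (κ * (Ef x : ℂ)) ^ q * ev x p := by
    intro x hx
    rw [hGv]
    simp only [hqv, ev_mul, ev_pow]
    rw [← hLe x hx, hκe, ← Complex.exp_nat_mul]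
    ring
  obtain ⟨Cp, hCp0, hCp⟩ := ev_bdd p
  set σ : ℝ := s₀ - k - 1 with hσ
  have hbd : ∀ x ∈ Usim n, ‖Gv x‖ * Real.exp (σ * (L x).re) ≤
      (1 + (1 / c₀) ^ m) * ‖κ‖ ^ q * Cp := by
    intro x hx
    have h1 := key_bound (t := s₀ - 1) (Ef_pos hx) (Ef_le hx) hc0 (hLb x hx) (by linarith)
      (m := m) (by rw [hm]; push_cast; linarith)
    have h2 := Dl_le hx
    have h3 : ‖Gv x‖ * Real.exp (σ * (L x).re) =
        (Real.exp ((s₀ - 1) * (L x).re) * Ef x ^ (M0 * m)) * ‖κ‖ ^ q *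
        (‖ev x (Dl n)‖ * ‖ev x p‖) := by
      rw [hGve x hx]
      have h31 : ‖Complex.exp ((k : ℂ) * L x)‖ = Real.exp ((k : ℝ) * (L x).re) := by
        have := hexpn (k : ℝ) x
        push_cast at this
        exact this
      simp only [norm_mul, norm_pow, h31, Complex.norm_real, Real.norm_eq_abs,
        abs_of_pos (Ef_pos hx), mul_pow]
      have h32 : Real.exp ((s₀ - 1) * (L x).re) = Real.exp ((k : ℝ) * (L x).re) *
          Real.exp (σ * (L x).re) := by
        rw [← Real.exp_add]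
        congr 1
        rw [hσ]
        ring
      rw [h32, hq]
      ring
    rw [h3]
    have h4 : 0 ≤ Real.exp ((s₀ - 1) * (L x).re) * Ef x ^ (M0 * m) :=
      mul_nonneg (Real.exp_pos _).le (pow_nonneg (Ef_pos hx).le _)
    have h5 : 0 ≤ ‖κ‖ ^ q := by positivity
    have h6 : ‖ev x (Dl n)‖ * ‖ev x p‖ ≤ Cp := by
      calc _ ≤ 1 * Cp := mul_le_mul h2 (hCp x hx) (norm_nonneg _) zero_le_one
        _ = Cp := one_mul _
    exact mul_le_mul (mul_le_mul_of_nonneg_right h1 h5) h6 (by positivity)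
      (mul_nonneg (h4.trans h1) h5)
  set CC : ℝ := max C₀ ((1 + (1 / c₀) ^ m) * ‖κ‖ ^ q * Cp) with hCC
  obtain ⟨-, hΦd⟩ := hDiff n (Usim n) L Gv σ CC hUo hUb hLc (continuous_ev _).continuousOn
    (fun x hx => (hLr x hx).trans (le_max_left _ _))
    (fun x hx => (hLi x hx).trans (le_max_left _ _))
    (fun x hx => (hbd x hx).trans (le_max_right _ _))
  have hfin := hVert n N f c hN1 hfh hf0 hc T hTs hTd k v
    (fun s : ℂ => ∫ x in Usim n, Complex.exp (s * L x) * Gv x) σ hvh (by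
      rw [hσ, hs0]
      linarith) hΦd (fun s hs => by
      rw [hTe (s : ℂ) v (by simpa using hs)]) (by
      have e1 : (-((n : ℂ) + 1) / N - k) = ((s₀ : ℂ) - k) := by
        rw [hs0]
        push_cast
        ring
      rw [e1]
      have e2 : ∫ x in Usim n, Complex.exp (((s₀ : ℂ) - k) * L x) * Gv x =
          ∫ x in Usim n, W x * ev x p := by
        refine MeasureTheory.setIntegral_congr_fun hUo.measurableSet fun x hx => ?_
        show Complex.exp (((s₀ : ℂ) - k) * L x) * Gv x = W x * ev x p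
        rw [hGve x hx, hW]
        have e3 : Complex.exp ((s₀ : ℂ) * L x) = Complex.exp (((s₀ : ℂ) - k) * L x) *
            Complex.exp ((k : ℂ) * L x) := by
          rw [← Complex.exp_add]
          congr 1
          ring
        simp only [e3]
        ring
      show ∫ x in Usim n, Complex.exp (((s₀ : ℂ) - k) * L x) * Gv x ≠ 0
      rw [e2]
      exact hpi)
  exact hfin

end Pool.Agent.K3h34.BF
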