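import Pool.Agent.K3h34.BF.Fin
import Pool.Agent.K3h15.DM.Roots
import Pool.Agent.K3h15.DM.Disc
import Pool.Agent.K3h15.DM.Zeta
import Pool.Agent.K3h15.DM.DD
import Pool.Agent.K3h15.DM.Exp
import Pool.Agent.K3h15.DM.Fun
import Pool.Agent.K3h15.DM.Mat
import Pool.Agent.K3h15.DM.Pol
import Pool.Agent.K3h15.DM.V1
import Pool.Agent.K3h15.DM.V2
import Pool.Agent.K3h7.DM.Adj

/-! # The roots and the poles, from the statements of the bricks -/

set_option autoImplicit false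

namespace Pool.Agent.K3h34.BF

open MvPolynomial
open Pool.Agent.H628R4.TP (weylS IsBFunction)
open Pool.Agent.K3h15.DM
open Pool.Agent.K3h15.BF (dh IsDiscB disc_dh)

/-- `ν`: for the exceptional divisor over the origin (`none`), `n + 1`; for the clusters of
`m = i + 2` roots (`some (Sum.inl i)`), `(m - 1) (m + 2) / 2`; for the clusters of `m = i + 1` roots at
`z_j` (`some (Sum.inr (j, i))`), `m (m + 1) / 2`. -/
def nuM (n r : ℕ) : Option (Fin (n - 1) ⊕ (Fin r × Fin n)) → ℕ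
  | none => n + 1
  | some (Sum.inl i) => ((i + 1) * (i + 4)) / 2
  | some (Sum.inr (_, i)) => ((i + 1) * (i + 2)) / 2

/-- `N`: for the exceptional divisor over the origin, the degree `(2 n - 2) a + ∑ b_j` of `f` if
`r ≥ 3`, or `r = 0` and `n ≥ 3`, and `0` (the factor is a constant) in the other cases; for the
clusters of `m = i + 2` roots, `a m (m - 1)`; for the clusters of `m = i + 1` roots at `z_j`,
`a m (m - 1) + b_j m`. -/
def mulM (n r a : ℕ) (b : Fin r → ℕ) : Option (Fin (n - 1) ⊕ (Fin r × Fin n)) → ℕ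
  | none => if 3 ≤ r ∨ (r = 0 ∧ 3 ≤ n) then (2 * n - 2) * a + ∑ j, b j else 0
  | some (Sum.inl i) => a * ((i + 2) * (i + 1))
  | some (Sum.inr (j, i)) => a * ((i + 1) * i) + b j * (i + 1)

theorem roots12 (hHom : StmHom) {n : ℕ}
    (hn : 1 ≤ n) {D : Rc n} (hD : IsDiscB n D) (a r : ℕ) (z : Fin r → ℂ) (b : Fin r → ℕ)
    (ha : 1 ≤ a) (hzi : Function.Injective z) (hb : ∀ j, 1 ≤ b j) (c : Polynomial ℂ)
    (hc : IsBFunction (D ^ a * ∏ j, hv n (z j) ^ b j) c) :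
    (∀ m i : ℕ, 2 ≤ m → m ≤ n → i < a → c.eval (-(1 / 2 + 1 / (m : ℂ) + i) / a) = 0) ∧
    (∀ (j : Fin r) (m i i' : ℕ), 1 ≤ m → m ≤ n → i ≤ a → i' ≤ b j →
      (i' < b j ∨ (2 ≤ m ∧ i < a)) →
      c.eval (-(((m : ℂ) + 1) / 2 + i * (m - 1) + i') / (a * (m - 1) + b j)) = 0) := by
  obtain ⟨hh1, hh2⟩ := hHom n hn
  obtain ⟨DD, hDD⟩ := t_DD n
  have hExp : StmExp := t_Exp t_L t_Dl
  have hF : IsDisc n (dh n D) := disc_dh hD
  have hc' : IsBFunction ((dh n D) ^ a * ∏ j, hz n (z j) ^ b j) c := by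
    have h := Pool.Agent.K3h58.BF.t_Dehom n ((2 * n - 2) * a + ∑ j, b j)
      (D ^ a * ∏ j, hv n (z j) ^ b j) ((hD.1.pow a).mul (IsHomogeneous.prod _ _ _ fun j _ => by
        have := ((hh2 (z j)).1).pow (b j)
        rwa [one_mul] at this)) c hc
    rw [map_mul, map_pow, map_prod] at h
    simpa only [map_pow, (hh2 _).2.2] using h
  exact ⟨fun m i hm hmn hi =>
    roots_one hDD t_L t_V1 t_Mat t_Fun hExp t_Pol t_Adj hF z b hc' hm hmn hi,
    fun j m i i' hm hmn hi hi' hii =>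
    roots_two hDD t_L t_V2 t_Mat t_Fun hExp t_Pol t_Adj hF ha z hzi b hc' (hb j) hm hmn hi hi' hii⟩

theorem half_cast (i : ℕ) : ((((i : ℕ) + 1) * (i + 4) / 2 : ℕ) : ℂ) =
    (((i : ℕ) : ℂ) + 1) * (i + 4) / 2 := by
  have h5 : 2 ∣ ((i : ℕ) + 1) * (i + 4) := by
    rcases Nat.even_or_odd (i : ℕ) with h | h
    · exact (even_iff_two_dvd.mp (h.add (by decide))).mul_left _
    · exact (even_iff_two_dvd.mp (h.add_odd (by decide))).mul_right _
  rw [Nat.cast_div h5 (by norm_num)]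
  push_cast
  ring

theorem half_cast' (i : ℕ) : ((((i : ℕ) + 1) * (i + 2) / 2 : ℕ) : ℂ) =
    (((i : ℕ) : ℂ) + 1) * (i + 2) / 2 := by
  have h5 : 2 ∣ ((i : ℕ) + 1) * (i + 2) := by
    rcases Nat.even_or_odd (i : ℕ) with h | h
    · exact (even_iff_two_dvd.mp (h.add (by decide))).mul_left _
    · exact (even_iff_two_dvd.mp (h.add_odd (by decide))).mul_right _
  rw [Nat.cast_div h5 (by norm_num)]
  push_cast
  ring

theorem num_one (n r a : ℕ) (ha : 1 ≤ a) (b : Fin r → ℕ) (i : Fin (n - 1)) :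
    -((nuM n r (some (Sum.inl i)) : ℕ) : ℂ) / (mulM n r a b (some (Sum.inl i)) : ℕ) =
        -(1 / 2 + 1 / (((i : ℕ) + 2 : ℕ) : ℂ) + (0 : ℕ)) / a := by
  have ha0 : (a : ℂ) ≠ 0 := by
    have : a ≠ 0 := by omega
    exact_mod_cast this
  have h6 : (((i : ℕ) : ℂ) + 1) ≠ 0 := Nat.cast_add_one_ne_zero (i : ℕ)
  have h7 : (((i : ℕ) : ℂ) + 2) ≠ 0 := by
    have : (i : ℕ) + 2 ≠ 0 := by omega
    exact_mod_cast this
  simp only [nuM, mulM]
  rw [half_cast]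
  push_cast
  field_simp
  ring

theorem num_two (n r a : ℕ) (b : Fin r → ℕ) (hb : ∀ j, 1 ≤ b j) (j : Fin r) (i : Fin n) :
    -((nuM n r (some (Sum.inr (j, i))) : ℕ) : ℂ) /
        (mulM n r a b (some (Sum.inr (j, i))) : ℕ) =
        -((((((i : ℕ) + 1 : ℕ)) : ℂ) + 1) / 2 + (0 : ℕ) * ((((i : ℕ) + 1 : ℕ) : ℂ) - 1) +
          (0 : ℕ)) / (a * ((((i : ℕ) + 1 : ℕ) : ℂ) - 1) + b j) := by
  have hbj := hb j
  have h6 : (((i : ℕ) : ℂ) + 1) ≠ 0 := Nat.cast_add_one_ne_zero (i : ℕ)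
  have h7 : ((a : ℂ) * i + b j) ≠ 0 := by
    have : a * (i : ℕ) + b j ≠ 0 := by omega
    exact_mod_cast this
  simp only [nuM, mulM]
  rw [half_cast']
  push_cast
  have h9 : (a : ℂ) * ((i + 1) * i) + b j * (i + 1) = (i + 1) * (a * i + b j) := by ring
  have h10 : (a : ℂ) * ((i : ℂ) + 1 - 1) + b j = a * i + b j := by ring
  rw [h9, h10]
  field_simp
  ring

theorem num_zero (k a : ℕ) (ha : 1 ≤ a) :
    -(((k + 3 + 1 : ℕ)) : ℂ) / (((2 * (k + 3) - 2) * a : ℕ) : ℂ) =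
      -(1 / 2 + 1 / ((k + 3 - 1 : ℕ) : ℂ) + (0 : ℕ)) / a := by
  have ha0 : (a : ℂ) ≠ 0 := by
    have : a ≠ 0 := by omega
    exact_mod_cast this
  have h7 : (((k : ℕ) : ℂ) + 2) ≠ 0 := by
    have : k + 2 ≠ 0 := by omega
    exact_mod_cast this
  have e1 : k + 3 - 1 = k + 2 := by omega
  have e2 : 2 * (k + 3) - 2 = 2 * (k + 2) := by omega
  rw [e1, e2]
  push_cast
  field_simp
  ring

theorem poles {n : ℕ} (a r : ℕ) (b : Fin r → ℕ)
    (ha : 1 ≤ a) (hb : ∀ j, 1 ≤ b j) (c : Polynomial ℂ)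
    (h1 : ∀ m i : ℕ, 2 ≤ m → m ≤ n → i < a → c.eval (-(1 / 2 + 1 / (m : ℂ) + i) / a) = 0)
    (h2 : ∀ (j : Fin r) (m i i' : ℕ), 1 ≤ m → m ≤ n → i ≤ a → i' ≤ b j →
      (i' < b j ∨ (2 ≤ m ∧ i < a)) →
      c.eval (-(((m : ℂ) + 1) / 2 + i * (m - 1) + i') / (a * (m - 1) + b j)) = 0)
    (h3 : 3 ≤ r → ∃ k : ℤ,
      c.eval (-((n : ℂ) + 1) / ((2 * n - 2 : ℕ) * a + ∑ j, b j : ℕ) + k) = 0)
    (χ : (Option (Fin (n - 1) ⊕ (Fin r × Fin n)) → ℕ) →₀ ℂ) (s₀ : ℂ)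
    (hs : (Zt (nuM n r) (mulM n r a b) χ).denom.eval s₀ = 0) :
      (∃ k : ℤ, c.eval (s₀ + k) = 0) ∧ (r ≤ 2 → c.eval s₀ = 0) := by
  obtain ⟨x, hx, rfl⟩ := pole_Zt _ _ χ (by
    rintro (_ | i | ⟨j, i⟩)
    · simp only [nuM]
      omega
    · have : 2 ≤ ((i : ℕ) + 1) * (i + 4) := by nlinarith
      simp only [nuM]
      omega
    · have : 2 ≤ ((i : ℕ) + 1) * (i + 2) := by nlinarith
      simp only [nuM]
      omega) s₀ hs
  have hex : ∀ s : ℂ, c.eval s = 0 → (∃ k : ℤ, c.eval (s + k) = 0) ∧ (r ≤ 2 → c.eval s = 0) :=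
    fun s h => ⟨⟨0, by rw [Int.cast_zero, add_zero]; exact h⟩, fun _ => h⟩
  rcases x with _ | i | ⟨j, i⟩
  · by_cases hcase : 3 ≤ r ∨ (r = 0 ∧ 3 ≤ n)
    · have hmul : mulM n r a b none = (2 * n - 2) * a + ∑ j, b j := if_pos hcase
      have hnu : nuM n r none = n + 1 := rfl
      rw [hmul, hnu]
      by_cases hr : 3 ≤ r
      · obtain ⟨k, hk⟩ := h3 hr
        refine ⟨⟨k, ?_⟩, fun h => absurd h (by omega)⟩
        rw [Nat.cast_add n 1, Nat.cast_one]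
        exact hk
      · obtain ⟨hr0, hn3⟩ : r = 0 ∧ 3 ≤ n := by tauto
        apply hex
        have h4 := h1 (n - 1) 0 (by omega) (by omega) (by omega)
        have h5 : ∑ j, b j = 0 := by
          subst hr0
          simp
        rw [h5, add_zero]
        obtain ⟨k, rfl⟩ : ∃ k, n = k + 3 := ⟨n - 3, by omega⟩
        rw [num_zero k a ha]
        exact h4
    · have hmul : mulM n r a b none = 0 := if_neg hcase
      rw [hmul] at hx
      exact absurd hx (lt_irrefl 0)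
  · apply hex
    rw [num_one n r a ha b i]
    exact h1 (i + 2) 0 (by omega) (by omega) (by omega)
  · apply hex
    have hbj := hb j
    rw [num_two n r a b hb j i]
    exact h2 j (i + 1) 0 0 (by omega) (by omega) (by omega) (by omega) (Or.inl (by omega))

end Pool.Agent.K3h34.BF
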