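import Pool.Agent.K3h15.DM.Base
import Pool.Agent.K3h15.BF.Bin
import Mathlib

/-!
# Discriminants of binary forms with marked points: definitions and statements of the steps (bricks)

`Rc n` is the ring of polynomials in the coefficients `a_0, ..., a_n` of a polynomial
`h = ∑ a_j T ^ j` of degree `≤ n` (not necessarily monic). For homogeneous `f`, `dh n f`
is `f` restricted to the monic polynomials (`a_n = 1`), an element of `Rx n`.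

GOAL of the run: `f = F ^ a * ∏ j, h(z_j) ^ b_j` with the discriminant `F` of the polynomials of degree
`≤ n`. The roots of every b-function coming from clusters of roots of `h` follow from the library
`K3h15.DM` (monic polynomials) by the dehomogenization `K3h58.BF.t_Dehom`. The vertex `0` of the cone gives the candidate
`-(n+1)/N`, `N = deg f`; we show that `-(n+1)/N + i` is a root for some integer `i` if there are at least
three marked points `z_j`.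
-/

set_option autoImplicit false

namespace Pool.Agent.K3h34.BF

open MvPolynomial
open Pool.Agent.H628R4.TP (weylS IsBFunction)
open Pool.Agent.K3h15.DM (Rx sh hx Dl Yp Sym IsDisc hz)
open Pool.Agent.K3h15.BF (dh IsDiscB)

/-- polynomials in the coefficients `a_0, ..., a_n` -/
abbrev Rc (n : ℕ) : Type := MvPolynomial (Fin (n + 1)) ℂ

/-- The value `h(w)` of the polynomial `h = ∑ a_j T ^ j` of degree `≤ n` at the point `w`. -/
noncomputable def hv (n : ℕ) (w : ℂ) : Rc n := ∑ j : Fin (n + 1), C (w ^ (j : ℕ)) * X j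

/-! ## Part A: algebra -/

/-- brick EX: existence and uniqueness of the discriminant.
Hint: uniqueness: every `a` with `a_n ≠ 0` is of the form `t ∏ (T - x_i)` (cf. `coeffs_surj` in
`K3h15.DM.Disc`), so `X (last) * (F - F') = 0` by `MvPolynomial.funext`. Existence: let `H` be the generic
polynomial over `Rc n`, of degree `n`. `F = Polynomial.discr H` should work (Mathlib, `resultant_deriv`:
`resultant H H' n (n-1) = ± a_n * discr H`; `resultant_map_map`, and at `t ∏ (T - x_i)` the resultant is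
`t ^ (n - 1) ∏ h'(x_i)` up to sign, `resultant_eq_prod_eval`); for the homogeneity show first
`F(t a) = t ^ (2 n - 2) F(a)` for `a_n ≠ 0`. -/
def StmEx : Prop := ∀ n : ℕ, 1 ≤ n → ∃! F : Rc n, IsDiscB n F

/-- brick HOM -/
def StmHom : Prop := ∀ n : ℕ, 1 ≤ n →
  (∀ F : Rc n, IsDiscB n F → F ≠ 0 ∧ ∀ (t : ℂ) (x : Fin n → ℂ),
    eval (fun j : Fin (n + 1) =>
      (Polynomial.C t * ∏ i, (Polynomial.X - Polynomial.C (x i))).coeff j) F =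
    t ^ (2 * n - 2) * ∏ i : Fin n, ∏ j ∈ Finset.Ioi i, (x j - x i) ^ 2) ∧
  ∀ w : ℂ, (hv n w).IsHomogeneous 1 ∧ hv n w ≠ 0 ∧ dh n (hv n w) = hz n w

/-- brick TRANS: b-functions and linear substitutions -/
def StmTrans : Prop := ∀ (m : ℕ) (M M' : Matrix (Fin m) (Fin m) ℂ), M * M' = 1 →
  ∀ (f : MvPolynomial (Fin m) ℂ) (c : Polynomial ℂ), IsBFunction f c →
    IsBFunction (aeval (fun j => ∑ k, C (M j k) * X k : Fin m → MvPolynomial (Fin m) ℂ) f) c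

/-- brick MOB: the substitution `g ↦ h = (T - w₀) ^ n g(1 / (T - w₀))`. Its matrix is
`M j k = ` coefficient of `T ^ j` in `(T - w₀) ^ (n - k)`, the inverse is `M' k j = ` coefficient of
`T ^ k` in `T ^ (n - j) (1 + w₀ T) ^ j`. For `g = t ∏ (T - x_i)`, all `x_i ≠ 0`,
`h = t ∏ (-x_i) ∏ (T - (w₀ + 1 / x_i))`, so that `F(h) = F(g)` if `g_0 g_n ≠ 0`, hence always. -/
def StmMob : Prop := ∀ n : ℕ, 1 ≤ n → ∀ F : Rc n, IsDiscB n F → ∀ w₀ : ℂ,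
  ∃ M M' : Matrix (Fin (n + 1)) (Fin (n + 1)) ℂ, M * M' = 1 ∧
    aeval (fun j => ∑ k, C (M j k) * X k : Fin (n + 1) → Rc n) F = F ∧
    aeval (fun j => ∑ k, C (M j k) * X k : Fin (n + 1) → Rc n) (hv n w₀) = X (Fin.last n) ∧
    ∀ w, w ≠ w₀ → aeval (fun j => ∑ k, C (M j k) * X k : Fin (n + 1) → Rc n) (hv n w) =
      C ((w - w₀) ^ n) * hv n (1 / (w - w₀))

/-! ## Part B: functionals, adjoints, and the vertex -/

/-- twisted integration by parts: think of `Λ s g = ∫ f ^ s g e ^ (-ℓ)`, `w j = ∂_j ℓ` -/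
def IsTw {σ : Type} (f : MvPolynomial σ ℂ) (w : σ → MvPolynomial σ ℂ)
    (Λ : ℝ → (MvPolynomial σ ℂ →ₗ[ℂ] ℂ)) : Prop :=
  (∀ s : ℝ, 0 < s → ∀ g, Λ s (f * g) = Λ (s + 1) g) ∧
  ∀ s : ℝ, 0 < s → ∀ j g,
    Λ s (f * pderiv j g + C ((s : ℂ) + 1) * pderiv j f * g) = Λ (s + 1) (w j * g)

/-- families of linear maps which depend polynomially on `s` -/
def Fam {σ : Type} (W : ℂ → (MvPolynomial σ ℂ →ₗ[ℂ] MvPolynomial σ ℂ)) : Prop :=
  ∃ (K : ℕ) (w : ℕ → (MvPolynomial σ ℂ →ₗ[ℂ] MvPolynomial σ ℂ)),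
    ∀ s : ℂ, W s = ∑ k ∈ Finset.range K, (s ^ k) • w k

/-- brick ADJ: `Q (f ^ (s + m) H) = f ^ s W(s) H` with a polynomial family `W`, and the adjoint `B` of
`Q`. Induction over `weylS` (`Algebra.adjoin_induction`): for `x_j`: `B = x_j`, `m0 = 0`, `W(s) H = f ^ m x_j H`;
for `∂_j`: `m0 = 1`, `W(s) H = f ^ m ∂_j H + (s + m) f ^ (m-1) ∂_j f H`, `B v = w_j v - ∂_j v` (apply the second rule
of `IsTw` to `g = v H` and `s + m - 1`); sums: `max`; products `Q1 Q2`: `B = B2 ∘ B1`,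
`W(s) = W1(s) ∘ W2(s + m1)` for `m = m1 + m2`, where `m1 = m0(Q1)` is fixed and `m2 = m - m1`. Prove that `Fam`
is closed under sums, compositions, and shifts `s ↦ s + m1`. -/
def StmAdjR : Prop := ∀ (σ : Type) (f : MvPolynomial σ ℂ) (w : σ → MvPolynomial σ ℂ),
  ∀ Q ∈ weylS σ, ∃ (B : MvPolynomial σ ℂ →ₗ[ℂ] MvPolynomial σ ℂ) (m0 : ℕ), ∀ m, m0 ≤ m →
    ∃ W : ℂ → (MvPolynomial σ ℂ →ₗ[ℂ] MvPolynomial σ ℂ), Fam W ∧
      (∀ (s : ℕ) (H : MvPolynomial σ ℂ), Q (f ^ (s + m) * H) = f ^ s * W (s : ℂ) H) ∧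
      ∀ Λ, IsTw f w Λ → ∀ s : ℝ, 0 < s → ∀ v H : MvPolynomial σ ℂ,
        Λ s (v * W (s : ℂ) H) = Λ (s + m) (B v * H)

/-- brick STEPS: the functional equation, iterated `k` times. Induction on `k`:
`c(s) ⋯ c(s+k-1) c(s+k) f ^ s = ∑ s ^ m (s + k) ^ j Q_m P_j f ^ (s + k + 1)`. -/
def StmSteps : Prop := ∀ (σ : Type) (f : MvPolynomial σ ℂ) (c : Polynomial ℂ), IsBFunction f c →
  ∀ k : ℕ, ∃ P : ℕ →₀ weylS σ, ∀ s : ℕ,
    C (∏ i ∈ Finset.range k, c.eval ((s : ℂ) + i)) * f ^ s =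
      P.sum fun m Q => ((s : ℂ) ^ m) • (Q : Module.End ℂ (MvPolynomial σ ℂ)) (f ^ (s + k))

/-- brick FE (from `StmAdjR` and `StmSteps`): take a common `M ≥ k` for all the operators `P_m`. At
the natural numbers `s ≥ M`, with `s' = s + k - M`, `∏ c(s + i) f ^ (M - k) = ∑ s ^ m W_m(s') 1` (cancel
`f ^ s'`); this is a polynomial identity in `s`, hence it holds for all real `s`; apply `Λ s' (v * ·)`. -/
def StmFE : Prop := ∀ (σ : Type) (f : MvPolynomial σ ℂ) (w : σ → MvPolynomial σ ℂ)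
  (c : Polynomial ℂ), f ≠ 0 → IsBFunction f c → ∀ k : ℕ,
  ∃ (M K : ℕ) (B : ℕ → (MvPolynomial σ ℂ →ₗ[ℂ] MvPolynomial σ ℂ)), ∀ Λ, IsTw f w Λ →
    ∀ s : ℝ, (M : ℝ) < s → ∀ v : MvPolynomial σ ℂ,
      (∏ i ∈ Finset.range k, c.eval ((s : ℂ) + i)) * Λ s v =
        ∑ i ∈ Finset.range K, (s : ℂ) ^ i * Λ (s + k) (B i v)

/-- functionals on the slice `a_n = 1`: think of `T s g = ∫ f ^ s g` over a domain in `{a_n = 1}` -/
def IsSl (n : ℕ) (f : Rc n) (T : ℝ → (Rc n →ₗ[ℂ] ℂ)) : Prop :=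
  (∀ s : ℝ, 0 < s → ∀ g, T s (f * g) = T (s + 1) g) ∧
  (∀ s : ℝ, 0 < s → ∀ g, T s (X (Fin.last n) * g) = T s g) ∧
  ∀ s : ℝ, 0 < s → ∀ (j : Fin n) (g : Rc n),
    T s (f * pderiv j.castSucc g + C ((s : ℂ) + 1) * pderiv j.castSucc f * g) = 0

/-- brick GAM: from the slice to the cone. Define `Λ s` on the monomials `e` by
`Γ(N s + |e| + n + 1) T s e`. For `g` homogeneous of degree `D`, the Euler relation
`∑_j x_j ∂_j g = D g` (also for `f`) and the third rule for `x_j g`, `j < n`, give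
`T s (f ∂_n g + (s+1) ∂_n f g) = (N (s + 1) + D + n) T s (f g)`; use `Γ(z + 1) = z Γ(z)`. -/
def StmGam : Prop := ∀ (n N : ℕ) (f : Rc n) (T : ℝ → (Rc n →ₗ[ℂ] ℂ)), 1 ≤ N →
  f.IsHomogeneous N → IsSl n f T → ∃ Λ : ℝ → (Rc n →ₗ[ℂ] ℂ),
    IsTw f (fun j => if j = Fin.last n then 1 else 0) Λ ∧
    ∀ (s : ℝ) (D : ℕ) (g : Rc n), 0 < s → g.IsHomogeneous D →
      Λ s g = Complex.Gamma ((N : ℂ) * s + D + n + 1) * T s g

/-- brick VERT (from `StmFE` and `StmGam`): take `K₁ = k + n + 2` steps; then for real `s > M`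
`∏_{i < K₁} c(s + i) Φ(s) = 1 / Γ(N s + k N + n + 1) * ∑_i s ^ i ∑_d Γ(N (s + K₁) + d + n + 1) T (s + K₁) ((B_i v)_d)`
(homogeneous components), both sides are holomorphic for `Re s > max σ (-K₁)`, and at
`s* = -(n+1)/N - k` the right side is zero, because `1 / Γ(0) = 0`
(`Complex.differentiable_one_div_Gamma`). -/
def StmVert : Prop := ∀ (n N : ℕ) (f : Rc n) (c : Polynomial ℂ), 1 ≤ N → f.IsHomogeneous N →
  f ≠ 0 → IsBFunction f c → ∀ T : ℂ → (Rc n →ₗ[ℂ] ℂ), IsSl n f (fun s : ℝ => T (s : ℂ)) →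
  (∀ g, DifferentiableOn ℂ (fun s => T s g) {s | 0 < s.re}) →
  ∀ (k : ℕ) (v : Rc n) (Φ : ℂ → ℂ) (σ : ℝ), v.IsHomogeneous (k * N) →
    σ < -((n : ℝ) + 1) / N - k → DifferentiableOn ℂ Φ {s | σ < s.re} →
    (∀ s : ℝ, 0 < s → Φ (s : ℂ) = T (s : ℂ) v) → Φ (-((n : ℂ) + 1) / N - k) ≠ 0 →
    ∃ i : ℤ, c.eval (-((n : ℂ) + 1) / N + i) = 0

/-! ## Part C: the integrals -/

/-- the open simplex `0 < x_0 < x_1 < ... < x_(n-1) < 1` -/
def Usim (n : ℕ) : Set (Fin n → ℝ) := {x | (∀ i j, i < j → x i < x j) ∧ ∀ i, 0 < x i ∧ x i < 1}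

/-- the value of a polynomial at a real point -/
noncomputable def ev {n : ℕ} (x : Fin n → ℝ) (p : Rx n) : ℂ := eval (fun i => (x i : ℂ)) p

/-- `g ↦` the values of `g` at the coefficients of the monic polynomials `∏ (T - (w + l x_i))` -/
noncomputable def qq (n : ℕ) (w l : ℂ) : Rc n →ₐ[ℂ] Rx n :=
  ((aeval (fun i : Fin n => (C l * X i : Rx n)) : Rx n →ₐ[ℂ] Rx n).comp (sh n w)).comp
    (dh n)

/-- brick IBP. `ψ = 1_U exp((s+1) L)` has the line derivative `1_U (s+1) exp(s L) ∂_i p` everywhere: in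
`U`, `L` is locally `Log (p / p(x0)) + L(x0)`; at the frontier `|ψ(x)| ≤ |p(x)| ^ (s+1) = O(|x - x0| ^ (s+1))`.
Then use `integral_bilinear_hasLineDerivAt_right_eq_neg_left_of_integrable`. -/
def StmIbp : Prop := ∀ (n : ℕ) (U : Set (Fin n → ℝ)) (L : (Fin n → ℝ) → ℂ) (p : Rx n),
  IsOpen U → Bornology.IsBounded U → ContinuousOn L U → (∀ x ∈ U, Complex.exp (L x) = ev x p) →
  (∀ x ∈ frontier U, ev x p = 0) → ∀ (s : ℝ) (i : Fin n) (g : Rx n), 0 < s →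
    ∫ x in U, Complex.exp ((s : ℂ) * L x) *
      ev x (p * pderiv i g + C ((s : ℂ) + 1) * pderiv i p * g) = 0

/-- brick DIFF: holomorphic dependence on `s`
(`hasDerivAt_integral_of_dominated_loc_of_deriv_le`; for `Re s ≥ σ + δ`,
`|L exp(s L) G| ≤ (|Re L| + C) exp((Re s - σ) Re L) exp(|Im s| C) C` is bounded, locally uniformly in `s`). -/
def StmDiff : Prop := ∀ (n : ℕ) (U : Set (Fin n → ℝ)) (L G : (Fin n → ℝ) → ℂ) (σ C₀ : ℝ),
  IsOpen U → Bornology.IsBounded U → ContinuousOn L U → ContinuousOn G U →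
  (∀ x ∈ U, (L x).re ≤ C₀) → (∀ x ∈ U, |(L x).im| ≤ C₀) →
  (∀ x ∈ U, ‖G x‖ * Real.exp (σ * (L x).re) ≤ C₀) →
  (∀ s : ℂ, σ < s.re →
    MeasureTheory.IntegrableOn (fun x => Complex.exp (s * L x) * G x) U) ∧
  DifferentiableOn ℂ (fun s : ℂ => ∫ x in U, Complex.exp (s * L x) * G x) {s | σ < s.re}

/-- brick SLF (from `StmIbp`, `StmDiff` and `t_Mat` of `K3h15.DM.Mat`): the functionals
`T s g = ∫_U exp(s L) (Δ g)(x) dx`. By `t_Mat` and the chain rule for `x_i ↦ l x_i`,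
`Δ qq(∂_j g) = ∑_i A_ji ∂_i (qq g)`, `∑_i ∂_i A_ji = 0` (with `A` multiplied by a power of `l`; you need
`dh n (pderiv j.castSucc g) = pderiv j (dh n g)`), so the third rule is a sum of integrals as in `StmIbp`, for
`g := A_ji qq g`. For `Re s ≤ 0` put `T s = 0`. -/
def StmSlf : Prop := ∀ (n : ℕ) (w l : ℂ) (f : Rc n) (L : (Fin n → ℝ) → ℂ) (C₀ : ℝ), l ≠ 0 →
  ContinuousOn L (Usim n) → (∀ x ∈ Usim n, Complex.exp (L x) = ev x (qq n w l f)) →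
  (∀ x ∈ Usim n, |(L x).im| ≤ C₀) → (∀ x ∈ frontier (Usim n), ev x (qq n w l f) = 0) →
  ∃ T : ℂ → (Rc n →ₗ[ℂ] ℂ), IsSl n f (fun s : ℝ => T (s : ℂ)) ∧
    (∀ g, DifferentiableOn ℂ (fun s => T s g) {s | 0 < s.re}) ∧
    ∀ (s : ℂ) (g : Rc n), 0 < s.re →
      T s g = ∫ x in Usim n, Complex.exp (s * L x) * ev x (Dl n * qq n w l g)

/-- the function `∏ x_i (1 - x_i) ∏_{i < j} (x_j - x_i) ^ 2` -/
noncomputable def Ef {n : ℕ} (x : Fin n → ℝ) : ℝ :=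
  (∏ i, x i * (1 - x i)) * ∏ i : Fin n, ∏ j ∈ Finset.Ioi i, (x j - x i) ^ 2

/-- brick VAL: the values of `qq`; `U` is open, bounded, not empty -/
def StmVal : Prop := ∀ (n : ℕ) (w l : ℂ), 1 ≤ n →
  qq n w l (X (Fin.last n)) = 1 ∧
  (∀ F, IsDiscB n F → qq n w l F = C (l ^ (n * (n - 1))) * Dl n ^ 2) ∧
  (∀ z : ℂ, qq n w l (hv n z) = ∏ i : Fin n, (C (z - w) - C l * X i : Rx n)) ∧
  (∀ p : Rx n, l ≠ 0 → Sym p → ∃ g : Rx n,
    (aeval (fun i : Fin n => (C l * X i : Rx n)) : Rx n →ₐ[ℂ] Rx n) (sh n w g) = p) ∧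
  IsOpen (Usim n) ∧ Bornology.IsBounded (Usim n) ∧ (Usim n).Nonempty

/-- brick LOG: the logarithm `L` of `f` on `U`. With `ξ_j = (z_j - w) / l`, not in `[0, 1]`,
`qq f = κ Δ ^ (2 a) ∏ x_i ^ b₁ ∏ (1 - x_i) ^ b₂ ∏_j ∏_i (1 - x_i / ξ_j) ^ b_j` with a constant `κ ≠ 0`; put
`L = Log κ + 2 a log Δ + b₁ ∑ log x_i + b₂ ∑ log (1 - x_i) + ∑_j b_j ∑_i Log (1 - x_i / ξ_j)`. (If `1 - t/ξ`,
`0 ≤ t ≤ 1`, were in `(-∞, 0]`, then `ξ ∈ [0, 1]`.) Lower bound: `|1 - t/ξ_j| ≥ δ > 0` on `[0, 1]`. -/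
def StmLog : Prop := ∀ (n : ℕ) (F : Rc n) (a b₀ b₁ b₂ : ℕ) (w l : ℂ) (J : Type) [Fintype J]
  (z : J → ℂ) (b : J → ℕ), 1 ≤ n → IsDiscB n F → 1 ≤ a → 1 ≤ b₁ → 1 ≤ b₂ → l ≠ 0 →
  (∀ (j : J) (t : ℝ), 0 ≤ t → t ≤ 1 → z j ≠ w + l * t) →
  ∃ (L : (Fin n → ℝ) → ℂ) (C₀ c₀ : ℝ), 0 < c₀ ∧ ContinuousOn L (Usim n) ∧
    (∀ x ∈ Usim n, Complex.exp (L x) = ev x (qq n w l
      (X (Fin.last n) ^ b₀ * F ^ a * hv n w ^ b₁ * hv n (w + l) ^ b₂ * ∏ j, hv n (z j) ^ b j))) ∧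
    (∀ x ∈ Usim n, |(L x).im| ≤ C₀) ∧ (∀ x ∈ Usim n, (L x).re ≤ C₀) ∧
    (∀ x ∈ Usim n, c₀ * Ef x ^ (a + b₁ + b₂) ≤ Real.exp ((L x).re)) ∧
    ∀ x ∈ frontier (Usim n), ev x (qq n w l
      (X (Fin.last n) ^ b₀ * F ^ a * hv n w ^ b₁ * hv n (w + l) ^ b₂ * ∏ j, hv n (z j) ^ b j)) = 0

/-- brick DENS: symmetric polynomials are dense. The real symmetric polynomials (the coefficients of
`∏ (T - x_i)`) separate the points of the closed simplex `0 ≤ x_0 ≤ ... ≤ x_(n-1) ≤ 1`; so by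
Stone–Weierstrass `∫_U W φ = 0` for all continuous `φ`; take a bump function at a point of `U`. -/
def StmDens : Prop := ∀ (n : ℕ) (W : (Fin n → ℝ) → ℂ) (C₀ : ℝ), ContinuousOn W (Usim n) →
  (∀ x ∈ Usim n, ‖W x‖ ≤ C₀) → (∀ x ∈ Usim n, W x ≠ 0) →
  ∃ p : Rx n, Sym p ∧ ∫ x in Usim n, W x * ev x p ≠ 0

/-- assembly: the vertex -/
def StmOrig : Prop := ∀ (n : ℕ) (F : Rc n) (a b₀ b₁ b₂ : ℕ) (w l : ℂ) (J : Type) [Fintype J]
  (z : J → ℂ) (b : J → ℕ) (c : Polynomial ℂ), 1 ≤ n → IsDiscB n F → 1 ≤ a → 1 ≤ b₀ → 1 ≤ b₁ →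
  1 ≤ b₂ → l ≠ 0 → (∀ (j : J) (t : ℝ), 0 ≤ t → t ≤ 1 → z j ≠ w + l * t) →
  IsBFunction (X (Fin.last n) ^ b₀ * F ^ a * hv n w ^ b₁ * hv n (w + l) ^ b₂ *
    ∏ j, hv n (z j) ^ b j) c →
  ∃ i : ℤ, c.eval (-((n : ℂ) + 1) / ((2 * n - 2 : ℕ) * a + b₀ + b₁ + b₂ + ∑ j, b j : ℕ) + i) = 0

end Pool.Agent.K3h34.BF
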